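import Pool.Agent.Q215.SD.Stm

set_option autoImplicit false
set_option linter.unusedSectionVars false

/-!
# Flipped graphs: the counting argument, version for a flip of the whole graph

Modification of `Pool.Agent.TH403.FLP.flip_bound`.
-/

namespace Pool.Agent.Q280.SD

open Finset Classical
open Pool.Agent.H234RC (Hypo NonIso)
open Pool.Agent.TH403.FLP (flipG)
open Pool.Agent.TH87.RVC (actF mem_actF FF FF_inv del)
open Pool.Agent.TH87.RVE (comps comp comp_of_mem comp_closed comp_self comps_sub comp_mem_comps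
  comps_nonempty mem_comps Typ mk mk_eq RelA actT actT_mk wt wt_map sum_wt_card sum_wt_sz wt_pos wt_zero
  wt_large wt_comp wt_erase' wt_del sz sz_mk sz_actT II PP card_II hE sum_PP TT_eq kel_main inv_sum
  exists_noncut card_erase_ge)

/-- the group of the permutations of the colours which come from the part outside of `L` -/
def Gam {V I : Type} (G : SimpleGraph V) (L : Finset V) (c : V → I) (M : I → I → Prop) :
    Subgroup (Equiv.Perm I) where
  carrier := {g | (∀ i j, M (g i) (g j) ↔ M i j) ∧ ∃ ρ : Equiv.Perm V, (∀ x, ρ x ∈ L ↔ x ∈ L) ∧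
    (∀ x, x ∉ L → c (ρ x) = g (c x)) ∧
    ∀ x y, x ∉ L → y ∉ L → (G.Adj (ρ x) (ρ y) ↔ G.Adj x y)}
  one_mem' := ⟨fun _ _ => Iff.rfl, 1, fun _ => Iff.rfl, fun _ _ => rfl, fun _ _ _ _ => Iff.rfl⟩
  mul_mem' := by
    rintro a b ⟨ha, ρ, h1, h2, h3⟩ ⟨hb, σ, k1, k2, k3⟩
    refine ⟨fun i j => ?_, ρ * σ, fun x => ?_, fun x hx => ?_, fun x y hx hy => ?_⟩
    · rw [Equiv.Perm.mul_apply, Equiv.Perm.mul_apply, ha, hb]
    · rw [Equiv.Perm.mul_apply, h1, k1]
    · rw [Equiv.Perm.mul_apply, Equiv.Perm.mul_apply, h2 _ (fun h => hx ((k1 x).mp h)), k2 x hx]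
    · rw [Equiv.Perm.mul_apply, Equiv.Perm.mul_apply, h3 _ _ (fun h => hx ((k1 x).mp h))
        (fun h => hy ((k1 y).mp h)), k3 x y hx hy]
  inv_mem' := by
    rintro a ⟨ha, ρ, h1, h2, h3⟩
    have e : ∀ i, a (a⁻¹ i) = i := fun i => a.apply_symm_apply i
    have eρ : ∀ x, ρ (ρ⁻¹ x) = x := fun x => ρ.apply_symm_apply x
    have hL : ∀ x, ρ⁻¹ x ∈ L ↔ x ∈ L := fun x => by rw [← h1, eρ]
    refine ⟨fun i j => ?_, ρ⁻¹, hL, fun x hx => ?_, fun x y hx hy => ?_⟩
    · have h := ha (a⁻¹ i) (a⁻¹ j)
      rw [e, e] at h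
      exact h.symm
    · apply a.injective
      rw [e, ← h2 _ (fun h => hx ((hL x).mp h)), eρ]
    · have h := h3 (ρ⁻¹ x) (ρ⁻¹ y) (fun h => hx ((hL x).mp h)) (fun h => hy ((hL y).mp h))
      rw [eρ, eρ] at h
      exact h.symm

theorem s_flip2 : Pool.Agent.Q215.SD.S_flip2 := by
  intro V _ G H π hH hN I _ L cG cH M hM τ hmapsL hc hMτ hGL
  set G' := flipG G cG M hM with hG'
  set H' := flipG H cH M hM with hH'
  have aG : ∀ x y, G'.Adj x y ↔ x ≠ y ∧ ¬ (G.Adj x y ↔ M (cG x) (cG y)) := fun _ _ => Iff.rfl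
  have aH : ∀ x y, H'.Adj x y ↔ x ≠ y ∧ ¬ (H.Adj x y ↔ M (cH x) (cH y)) := fun _ _ => Iff.rfl
  by_cases h3 : (comps G' L).card < 3
  · refine ⟨1, by omega, ?_⟩
    have : (1 : ℝ) ≤ (((Fintype.card I).factorial : ℕ) : ℝ) := by
      exact_mod_cast Nat.succ_le_of_lt (Nat.factorial_pos _)
    rw [pow_one]; linarith
  push Not at h3
  have hlo : 3 ≤ L.card := by
    refine h3.trans ?_
    unfold comps
    exact card_image_le
  obtain ⟨i0, hi0⟩ : L.Nonempty := card_pos.mp (by omega)
  have hflip : ∀ i ∈ L, ∀ x ∈ L, ∀ y ∈ L, x ≠ i → y ≠ i →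
      (H'.Adj (π i x) (π i y) ↔ G'.Adj x y) := by
    intro i hi x hx y hy hxi hyi
    rw [aG, aH, (π i).injective.ne_iff, hH.adj i x y hxi hyi, hc i hi x hxi, hc i hi y hyi,
      hMτ i hi]
  let NG : V → Finset I := fun v => {cG v}
  let NH : V → Finset I := fun v => {cH v}
  have hNGr : ∀ v i, i ∈ NG v ↔ cG v = i := fun v x => by simp [NG, eq_comm]
  have hNHr : ∀ v i, i ∈ NH v ↔ cH v = i := fun v x => by simp [NH, eq_comm]
  have hrel : ∀ i ∈ L, ∀ j ∈ L, j ≠ i → NH (π i j) = actF _ (τ i) (NG j) := by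
    intro i hi j hj hji
    ext x
    obtain ⟨y, rfl⟩ := (τ i).surjective x
    rw [mem_actF, hNGr, hNHr, hc i hi j hji]
    exact (τ i).apply_eq_iff_eq
  let Γ : Subgroup (Equiv.Perm I) := Gam G L cG M
  let φ : Γ →* Equiv.Perm (Typ V I) := (actT V I).comp Γ.subtype
  have hφ : ∀ (g : Γ) s, φ g s = actT V I g.1 s := fun g s => rfl
  let N' : V → Finset I := fun x => actF _ (τ i0)⁻¹ (NH x)
  have hN' : ∀ x, NH x = actF _ (τ i0) (N' x) := by
    intro x
    show _ = actF _ (τ i0) (actF _ (τ i0)⁻¹ (NH x))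
    rw [map_inv]
    exact ((actF _ (τ i0)).apply_symm_apply _).symm
  -- deck condition
  have hdeck : ∀ v ∈ L, ∃ g : Γ, ∀ y, wt H' N' (L.erase v) (φ g y) = wt G' NG (L.erase v) y := by
    intro i hi
    have hmem : (τ i0)⁻¹ * τ i ∈ Γ := by
      have hρL : ∀ x, ((π i0).symm * π i) x ∈ L ↔ x ∈ L := fun x => by
        rw [Equiv.Perm.mul_apply, ← hmapsL i0 hi0, Equiv.apply_symm_apply, hmapsL i hi]
      refine ⟨fun a b => ?_, (π i0).symm * π i, hρL, fun x hx => ?_, fun x y hx hy => ?_⟩
      · have e : ∀ i, τ i0 ((τ i0)⁻¹ i) = i := fun i => (τ i0).apply_symm_apply i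
        rw [Equiv.Perm.mul_apply, Equiv.Perm.mul_apply, ← hMτ i0 hi0, e, e, hMτ i hi]
      · have hx1 : (π i0).symm (π i x) ∉ L := fun h => hx ((hρL x).mp h)
        have hx2 : (π i0).symm (π i x) ≠ i0 := fun h => hx1 (by rw [h]; exact hi0)
        have h1 := hc i0 hi0 _ hx2
        rw [Equiv.apply_symm_apply, hc i hi x (fun h => hx (h ▸ hi))] at h1
        rw [Equiv.Perm.mul_apply, Equiv.Perm.mul_apply, h1]
        exact ((τ i0).symm_apply_apply _).symm
      · rw [Equiv.Perm.mul_apply, Equiv.Perm.mul_apply]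
        have hx1 : (π i0).symm (π i x) ∉ L := fun h => hx ((hρL x).mp h)
        have hy1 : (π i0).symm (π i y) ∉ L := fun h => hy ((hρL y).mp h)
        have hx2 : (π i0).symm (π i x) ≠ i0 := fun h => hx1 (by rw [h]; exact hi0)
        have hy2 : (π i0).symm (π i y) ≠ i0 := fun h => hy1 (by rw [h]; exact hi0)
        have h1 := hH.adj i0 _ _ hx2 hy2
        rw [Equiv.apply_symm_apply, Equiv.apply_symm_apply] at h1
        rw [← h1]
        exact hH.adj i x y (fun h => hx (h ▸ hi)) (fun h => hy (h ▸ hi))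
    refine ⟨⟨_, hmem⟩, fun y => ?_⟩
    rw [hφ]
    show wt H' N' (L.erase i) (actT V I ((τ i0)⁻¹ * τ i) y) = _
    apply wt_map G' H' NG N' (L.erase i) (L.erase i) (π i)
    · intro x
      rw [mem_erase, mem_erase, hmapsL i hi]
      have : π i x ≠ i ↔ x ≠ i := by
        rw [← (π i).injective.ne_iff (x := x), hH.fix]
      rw [this]
    · intro x y hx hy
      exact hflip i hi x (mem_erase.mp hx).2 y (mem_erase.mp hy).2 (mem_erase.mp hx).1
        (mem_erase.mp hy).1
    · intro x hx
      show actF _ (τ i0)⁻¹ (NH (π i x)) = _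
      rw [hrel i hi x (mem_erase.mp hx).2 (mem_erase.mp hx).1]
      show _ = actF _ ((τ i0)⁻¹ * τ i) (NG x)
      rw [map_mul]; rfl
  have hcardEq : ∀ v ∈ L, (comps H' (L.erase v)).card = (comps G' (L.erase v)).card := by
    intro v hv
    obtain ⟨g, hg⟩ := hdeck v hv
    rw [← sum_wt_card H' N', ← sum_wt_card G' NG, ← Equiv.sum_comp (φ g)]
    exact sum_congr rfl (fun y _ => hg y)
  -- the graph `H'` has at least two components
  have hH2 : 2 ≤ (comps H' L).card := by
    by_contra hcon
    obtain ⟨v, hv, h1⟩ := exists_noncut H' L ⟨i0, hi0⟩ (by omega)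
    have h2 := card_erase_ge G' L v hv
    rw [hcardEq v hv] at h1
    omega
  set w := wt G' NG L with hw
  set w' := wt H' N' L with hw'
  have hsz : ∀ (g : Γ) y, sz (φ g y) = sz y := fun g y => sz_actT _ _
  have hk0 := kel_main φ sz II PP card_II hsz (fun g y f => hE _ y f) sum_PP w w'
    (fun y hy => wt_zero G' NG L y hy) (fun y hy => wt_zero H' N' L y hy)
    (by rw [hw, hw', sum_wt_sz, sum_wt_sz])
    (by
      intro c
      rw [hw, hw', TT_eq, TT_eq]
      apply sum_congr rfl
      intro v hv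
      obtain ⟨g, hg⟩ := hdeck v hv
      rw [← FF_inv φ c (wt H' N' (L.erase v)) g]
      congr 1
      funext y
      exact (hg y).symm)
  have hcG : ∑ y, w y = (comps G' L).card := sum_wt_card G' NG L
  have hcH : ∑ y, w' y = (comps H' L).card := sum_wt_card H' N' L
  have hk2 := hk0 2 (by omega) (by omega)
  have hNN : ∑ y, w y = ∑ y, w' y := by
    have := inv_sum φ w w' 2 le_rfl hk2 (fun _ => 1) (fun _ _ => rfl)
    simpa using this
  set N := (comps G' L).card with hNdef
  have hk := hk0 N (by omega) (by omega)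
  -- sizes
  have hsizes : ∀ r : ℕ, ∑ y, (if sz y = r then 1 else 0) * w y =
      ∑ y, (if sz y = r then 1 else 0) * w' y := by
    intro r
    exact inv_sum φ w w' 2 le_rfl hk2 (fun y => if sz y = r then 1 else 0)
      (fun g y => by simp only [hsz])
  -- a smallest component
  obtain ⟨D0, hD0, hmin⟩ := exists_min_image (comps G' L) (fun D => D.card)
    (card_pos.mp (by omega))
  obtain ⟨v, hv⟩ := comps_nonempty G' L D0 hD0
  have hvL := comps_sub G' L D0 hD0 hv
  set r0 := D0.card with hr0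
  have hr0p : 0 < r0 := card_pos.mpr ⟨v, hv⟩
  have hwlt : ∀ y, sz y < r0 → w y = 0 := by
    intro y hy
    by_contra hne
    obtain ⟨D, hD, rfl⟩ := wt_pos G' NG L y hne
    rw [sz_mk] at hy
    have := hmin D hD
    simp only at hy
    omega
  have hwlt' : ∀ y, sz y < r0 → w' y = 0 := by
    intro y hy
    have h1 := hsizes (sz y)
    have h2 : ∑ z, (if sz z = sz y then 1 else 0) * w z = 0 := by
      apply sum_eq_zero
      intro z _
      by_cases h : sz z = sz y
      · rw [hwlt z (by omega)]; simp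
      · rw [if_neg h, zero_mul]
    rw [h2] at h1
    have h3 := (sum_eq_zero_iff.mp h1.symm) y (mem_univ _)
    simpa using h3
  set D' := comp H' L v with hD'
  have hD'c : D' ∈ comps H' L := comp_mem_comps H' L v hvL
  have hvD' : v ∈ D' := comp_self H' L v hvL
  set t := mk (D0, G', NG) with ht
  set t' := mk (D', H', N') with ht'
  have hszt : sz t = r0 := sz_mk _
  have hszt' : sz t' = D'.card := sz_mk _
  have hwt : 1 ≤ w t := by
    rw [hw, wt_comp G' NG L D0 hD0, if_pos rfl]; omega
  have hwt' : 1 ≤ w' t' := by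
    rw [hw', wt_comp H' N' L D' hD'c, if_pos rfl]; omega
  have hD'ge : r0 ≤ D'.card := by
    by_contra hlt
    have := hwlt' t' (by omega)
    omega
  obtain ⟨g, hg⟩ := hdeck v hvL
  have hg2 : ∀ y, del w' t' (φ g y) + wt H' N' (D'.erase v) (φ g y) =
      del w t y + wt G' NG (D0.erase v) y := by
    intro y
    rw [← wt_erase' H' N' L D' hD'c v hvD', ← wt_erase' G' NG L D0 hD0 v hv]
    exact hg y
  have hD0e : (D0.erase v).card < r0 := by
    rw [card_erase_of_mem hv]; omega
  have hD'r : D'.card = r0 := by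
    by_contra hne
    have hlt : r0 < D'.card := lt_of_le_of_ne hD'ge (fun e => hne e.symm)
    have h1 := hsizes r0
    have e2 : ∑ y, (if y = t then 1 else 0) = 1 := by
      rw [sum_ite_eq' univ t]; simp
    have e1 : ∑ y, (if sz y = r0 then 1 else 0) * del w t y + ∑ y, (if y = t then 1 else 0) =
        ∑ y, (if sz y = r0 then 1 else 0) * w y := by
      rw [← sum_add_distrib]
      apply sum_congr rfl
      intro y _
      unfold del
      by_cases h : y = t
      · rw [if_pos h, if_pos h, h, if_pos hszt]; omega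
      · rw [if_neg h, if_neg h]; rfl
    have e3 : ∑ y, (if sz y = r0 then 1 else 0) * w' y ≤
        ∑ y, (if sz y = r0 then 1 else 0) * del w t y := by
      rw [← Equiv.sum_comp (φ g)]
      apply sum_le_sum
      intro y _
      rw [hsz]
      by_cases h : sz y = r0
      · rw [if_pos h, one_mul, one_mul]
        have h2 := hg2 y
        rw [wt_large G' NG (D0.erase v) y (by omega)] at h2
        have h4 : del w' t' (φ g y) = w' (φ g y) := by
          unfold del
          rw [if_neg]
          intro h5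
          have h6 := congrArg sz h5
          rw [hsz] at h6
          omega
        omega
      · rw [if_neg h, zero_mul]; exact Nat.zero_le _
    omega
  have hrel2 : ∀ y, del w' t' (φ g y) = del w t y := by
    intro y
    by_cases h : r0 ≤ sz y
    · have h2 := hg2 y
      rw [wt_large G' NG (D0.erase v) y (by omega), wt_large H' N' (D'.erase v) (φ g y)
        (by rw [hsz, card_erase_of_mem hvD']; omega)] at h2
      omega
    · have h4 : w y = 0 := hwlt y (by omega)
      have h5 : w' (φ g y) = 0 := hwlt' _ (by rw [hsz]; omega)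
      unfold del
      rw [h4, h5]
      simp
  -- not equivalent
  have hneq : ¬ ∃ γ : Γ, ∀ x, w' (φ γ x) = w x := by
    rintro ⟨⟨γ, hγI, ρ, hρ2, hρ1, hρ3⟩, hγ⟩
    replace hγ : ∀ x, w' (actT V I γ x) = w x := hγ
    apply hN
    let ι := {D // D ∈ comps G' L}
    let ι' := {D // D ∈ comps H' L}
    have cardG : ∀ x, Fintype.card {j : ι // mk ((j : Finset V), G', NG) = x} = wt G' NG L x := by
      intro x
      unfold wt
      rw [← Fintype.card_coe]
      apply Fintype.card_congr
      exact ⟨fun j => ⟨j.1.1, mem_filter.mpr ⟨j.1.2, j.2⟩⟩,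
        fun j => ⟨⟨j.1, (mem_filter.mp j.2).1⟩, (mem_filter.mp j.2).2⟩,
        fun _ => rfl, fun _ => rfl⟩
    have cardH : ∀ x, Fintype.card {j : ι' // mk ((j : Finset V), H', N') = x} = wt H' N' L x := by
      intro x
      unfold wt
      rw [← Fintype.card_coe]
      apply Fintype.card_congr
      exact ⟨fun j => ⟨j.1.1, mem_filter.mpr ⟨j.1.2, j.2⟩⟩,
        fun j => ⟨⟨j.1, (mem_filter.mp j.2).1⟩, (mem_filter.mp j.2).2⟩,
        fun _ => rfl, fun _ => rfl⟩
    have hfib : ∀ c : Typ V I,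
        Nonempty ({j : ι // actT V I γ (mk ((j : Finset V), G', NG)) = c} ≃
          {j : ι' // mk ((j : Finset V), H', N') = c}) := by
      intro c
      obtain ⟨x, rfl⟩ := (actT V I γ).surjective c
      have h1 : wt H' N' L (actT V I γ x) = wt G' NG L x := hγ x
      refine ⟨Fintype.equivOfCardEq ?_⟩
      rw [cardH, h1, ← cardG]
      apply Fintype.card_congr
      apply Equiv.subtypeEquivRight
      intro j
      exact (actT V I γ).apply_eq_iff_eq
    let tG : ι → Typ V I := fun j =>
      actT V I γ (mk ((j : Finset V), G', NG))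
    let tH : ι' → Typ V I := fun j => mk ((j : Finset V), H', N')
    let β : ι ≃ ι' := Equiv.ofFiberEquiv (f := tG) (g := tH) (fun c => (hfib c).some)
    have hβ : ∀ j : ι, mk ((β j : Finset V), H', N') =
        actT V I γ (mk ((j : Finset V), G', NG)) :=
      fun j => Equiv.ofFiberEquiv_map (f := tG) (g := tH) _ j
    have hβ2 : ∀ j : ι, RelA γ ((j : Finset V), G', NG) ((β j : Finset V), H', N') := fun j =>
      (actT_mk γ _ _).mp (hβ j).symm
    choose σ hσ1 hσ2 hσ3 using hβ2
    simp only at hσ1 hσ2 hσ3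
    let cj : ∀ x, x ∈ L → ι := fun x hx => ⟨comp G' L x, comp_mem_comps G' L x hx⟩
    have hcj : ∀ x hx, x ∈ ((cj x hx : ι) : Finset V) := fun x hx => comp_self G' L x hx
    let σ0 : V → V := fun x => if h : x ∈ L then σ (cj x h) x else π i0 (ρ x)
    have hσL : ∀ x (h : x ∈ L), σ0 x = σ (cj x h) x := fun x h => by simp [σ0, h]
    have hσR : ∀ x, x ∉ L → σ0 x = π i0 (ρ x) := fun x h => by simp [σ0, h]
    have hσm : ∀ x (h : x ∈ L), σ0 x ∈ ((β (cj x h) : ι') : Finset V) := fun x h => by
      rw [hσL x h, hσ1]; exact hcj x h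
    have hσL' : ∀ x, x ∈ L → σ0 x ∈ L := fun x h => comps_sub H' L _ (β (cj x h)).2 (hσm x h)
    have hσR' : ∀ x, x ∉ L → σ0 x ∉ L := fun x h => by
      rw [hσR x h, hmapsL i0 hi0, hρ2]; exact h
    have hsame : ∀ x y (hx : x ∈ L) (hy : y ∈ L), σ0 y ∈ ((β (cj x hx) : ι') : Finset V) →
        cj x hx = cj y hy := by
      intro x y hx hy h
      apply β.injective
      apply Subtype.ext
      rw [← comp_of_mem H' L _ (β (cj x hx)).2 _ h, ← comp_of_mem H' L _ (β (cj y hy)).2 _ (hσm y hy)]
    have hinj : Function.Injective σ0 := by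
      intro x y hxy
      by_cases hx : x ∈ L
      · by_cases hy : y ∈ L
        · have h1 := hsame x y hx hy (hxy ▸ hσm x hx)
          rw [hσL x hx, hσL y hy, h1] at hxy
          exact (σ _).injective hxy
        · exact absurd (hxy ▸ hσL' x hx) (hσR' y hy)
      · by_cases hy : y ∈ L
        · exact absurd (hxy ▸ hσL' y hy) (hσR' x hx)
        · rw [hσR x hx, hσR y hy] at hxy
          exact ρ.injective ((π i0).injective hxy)
    let ω : Equiv.Perm V := Equiv.ofBijective σ0 (Finite.injective_iff_bijective.mp hinj)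
    have hω : ∀ x, ω x = σ0 x := fun x => rfl
    refine ⟨ω, fun x y => ?_⟩
    rw [hω, hω]
    have hNσ : ∀ x (hx : x ∈ L), NH (σ0 x) = actF _ (τ i0) (actF _ γ (NG x)) := by
      intro x hx
      rw [hN' (σ0 x), hσL x hx, hσ3 (cj x hx) x (hcj x hx)]
    have hcol : ∀ x, cH (σ0 x) = τ i0 (γ (cG x)) := by
      intro x
      by_cases hx : x ∈ L
      · rw [← hNHr, hNσ x hx, mem_actF, mem_actF, hNGr]
      · have hx1 : ρ x ∉ L := fun h => hx ((hρ2 x).mp h)
        rw [hσR x hx, hc i0 hi0 (ρ x) (fun h => hx1 (by rw [h]; exact hi0)), hρ1 x hx]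
    have hMM : ∀ x y, (M (cH (σ0 x)) (cH (σ0 y)) ↔ M (cG x) (cG y)) := by
      intro x y
      rw [hcol x, hcol y, hMτ i0 hi0, hγI]
    have hHL : ∀ x ∈ L, ∀ y, y ∉ L → (H.Adj x y ↔ M (cH x) (cH y)) := by
      intro x hx y hy
      obtain ⟨v, hv, hvx⟩ : ∃ v ∈ L, v ≠ x := by
        by_contra hcon
        push Not at hcon
        have h5 : L ⊆ {x} := fun v hv => mem_singleton.mpr (hcon v hv)
        have h6 := card_le_card h5
        rw [card_singleton] at h6
        omega
      obtain ⟨u, rfl⟩ := (π v).surjective x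
      obtain ⟨z, rfl⟩ := (π v).surjective y
      have hu : u ∈ L := (hmapsL v hv u).mp hx
      have hz : z ∉ L := fun h => hy ((hmapsL v hv z).mpr h)
      have huv : u ≠ v := fun h => hvx (by rw [h, hH.fix])
      have hzv : z ≠ v := fun h => hz (h ▸ hv)
      rw [hH.adj v u z huv hzv, hc v hv u huv, hc v hv z hzv, hMτ v hv]
      exact hGL u hu z hz
    have hmix : ∀ x y, x ∈ L → y ∉ L → (H.Adj (σ0 x) (σ0 y) ↔ G.Adj x y) := by
      intro x y hx hy
      rw [hHL _ (hσL' x hx) _ (hσR' y hy), hMM, hGL x hx y hy]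
    by_cases hxy : x = y
    · subst hxy
      exact ⟨fun h => absurd rfl h.ne, fun h => absurd rfl h.ne⟩
    have hxy' : σ0 x ≠ σ0 y := fun h => hxy (hinj h)
    by_cases hx : x ∈ L
    · by_cases hy : y ∈ L
      · have hmm := hMM x y
        by_cases hc : cj x hx = cj y hy
        · have h1 : H'.Adj (σ0 x) (σ0 y) ↔ G'.Adj x y := by
            rw [hσL x hx, hσL y hy, ← hc]
            exact hσ2 (cj x hx) x y (hcj x hx) (hc ▸ hcj y hy)
          rw [aG, aH, hmm] at h1
          by_cases m : M (cG x) (cG y) <;> simp only [m, hxy, hxy', ne_eq, not_false_eq_true,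
            true_and, iff_true, iff_false, not_not] at h1
          · exact not_iff_not.mp h1
          · exact h1
        · have h1 : ¬ H'.Adj (σ0 x) (σ0 y) := fun h =>
            absurd (hsame x y hx hy (comp_closed H' L _ (β (cj x hx)).2 _ _ (hσm x hx)
              (hσL' y hy) h)) hc
          have h2 : ¬ G'.Adj x y := by
            intro h
            apply hc
            have h1 := comp_closed G' L _ (cj x hx).2 x y (hcj x hx) hy h
            apply Subtype.ext
            exact (comp_of_mem G' L _ (cj x hx).2 y h1).symm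
          rw [aH, hmm] at h1
          rw [aG] at h2
          have h3 := not_not.mp (fun h => h1 ⟨hxy', h⟩)
          have h4 := not_not.mp (fun h => h2 ⟨hxy, h⟩)
          exact h3.trans h4.symm
      · exact hmix x y hx hy
    · by_cases hy : y ∈ L
      · rw [H.adj_comm, G.adj_comm]
        exact hmix y x hy hx
      · rw [hσR x hx, hσR y hy]
        have hx1 : ρ x ∉ L := fun h => hx ((hρ2 x).mp h)
        have hy1 : ρ y ∉ L := fun h => hy ((hρ2 y).mp h)
        have hx2 : ρ x ≠ i0 := fun h => hx1 (by rw [h]; exact hi0)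
        have hy2 : ρ y ≠ i0 := fun h => hy1 (by rw [h]; exact hi0)
        rw [hH.adj i0 _ _ hx2 hy2]
        exact hρ3 x y hx hy
  obtain ⟨s, hs1, hs2⟩ := Pool.Agent.TH87.RVE.main_bound φ N (by omega) w w' (by omega) (by omega)
    hk t t' g hrel2 hneq
  refine ⟨s, hs1, hs2.trans ?_⟩
  have hcard : Fintype.card Γ ≤ (Fintype.card I).factorial := by
    calc Fintype.card Γ ≤ Fintype.card (Equiv.Perm I) :=
          Fintype.card_le_of_injective _ Subtype.val_injective
      _ = (Fintype.card I).factorial := by rw [Fintype.card_perm]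
  have : (Fintype.card Γ : ℝ) ≤ (((Fintype.card I).factorial : ℕ) : ℝ) := by
    exact_mod_cast hcard
  linarith

end Pool.Agent.Q280.SD
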