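import Pool.Agent.Q280.SD.A

/-!
# Bounded defect
-/

set_option autoImplicit false

open Matroid Set Q241.SX

namespace Pool.Agent.Q280.SD

theorem trdeg_adjoin (X : Set ℂ) (hX : M.eRk X ≠ ⊤) :
    (Algebra.trdeg ℚ (IntermediateField.adjoin ℚ X)).toNat = (M.eRk X).toNat := by
  obtain ⟨n, hn⟩ : ∃ n : ℕ, M.eRk X = n := ⟨_, (ENat.natCast_toNat hX).symm⟩
  rw [hn, ENat.toNat_natCast]
  have h1 : (n : Cardinal) ≤ Algebra.trdeg ℚ (IntermediateField.adjoin ℚ X) := by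
    obtain ⟨w, hw1, hw2⟩ := exists_of_le_eRk hn.ge
    let w' : Fin n → IntermediateField.adjoin ℚ X :=
      fun i => ⟨w i, IntermediateField.subset_adjoin _ _ (hw1 i)⟩
    have h2 : AlgebraicIndependent ℚ w' := by
      refine AlgebraicIndependent.of_comp (IntermediateField.adjoin ℚ X).val ?_
      exact hw2
    have h3 := h2.cardinalMk_le_trdeg
    simpa using h3
  have h2 : Algebra.trdeg ℚ (IntermediateField.adjoin ℚ X) ≤ n := by
    by_contra hcon
    push Not at hcon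
    have h3 : ((n + 1 : ℕ) : Cardinal) ≤ Algebra.trdeg ℚ (IntermediateField.adjoin ℚ X) := by
      have h := Order.succ_le_of_lt hcon
      rw [Cardinal.succ_natCast] at h
      exact_mod_cast h
    obtain ⟨s, hs⟩ := exists_isTranscendenceBasis' ℚ (IntermediateField.adjoin ℚ X)
    obtain ⟨b, hb⟩ := hs
    rw [← hb.cardinalMk_eq_trdeg] at h3
    rw [← Cardinal.mk_fin, Cardinal.le_def] at h3
    obtain ⟨f⟩ := h3
    have h4 : AlgebraicIndependent ℚ (fun i : Fin (n + 1) => ((b (f i) : IntermediateField.adjoin ℚ X) : ℂ)) := by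
      have := (hb.1.comp f f.injective).map' (f := (IntermediateField.adjoin ℚ X).val)
        (IntermediateField.adjoin ℚ X).val.injective
      exact this
    have h5 := enat_le_eRk (X := X) _ h4 fun i => adjoin_sub X (b (f i)).2
    rw [hn] at h5
    have h6 : n + 1 ≤ n := by exact_mod_cast h5
    omega
  have h3 : Algebra.trdeg ℚ (IntermediateField.adjoin ℚ X) = n := le_antisymm h2 h1
  rw [h3, Cardinal.toNat_natCast]

/-- the defect -/
noncomputable def dfc (V : Submodule ℚ ℂ) : ℤ := (Module.finrank ℚ V : ℤ) - rN V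

theorem badC_iff_dfc (C : ℕ) (V : Submodule ℚ ℂ) [FiniteDimensional ℚ V] :
    BadC C V ↔ (C : ℤ) < dfc V := by
  rw [badC_iff, dfc]
  omega

theorem dfc_submod (V W : Submodule ℚ ℂ) [FiniteDimensional ℚ V] [FiniteDimensional ℚ W] :
    dfc V + dfc W ≤ dfc (V ⊓ W) + dfc (V ⊔ W) := by
  have h3 := rN_submod V W
  have h4 := Submodule.finrank_sup_add_finrank_inf_eq V W
  unfold dfc
  omega

theorem dfc_bar (V : Submodule ℚ ℂ) : dfc (Q241.SX.bar V) = dfc V := by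
  rw [dfc, dfc, rN_bar, finrank_bar]

/-- no finite dimensional space has defect larger than `C` -/
def NoBad (C : ℕ) : Prop := ∀ V : Submodule ℚ ℂ, ¬ BadC C V

theorem rN_bot : rN (⊥ : Submodule ℚ ℂ) = 0 := by
  have h1 : (⊥ : Submodule ℚ ℂ) ≤ G ∅ := bot_le
  have h2 := rk_le_of_le_G h1
  rw [M.eRk_empty] at h2
  have h3 : rk (⊥ : Submodule ℚ ℂ) = 0 := le_antisymm h2 zero_le
  rw [rN, h3]
  rfl

theorem dfc_bot : dfc (⊥ : Submodule ℚ ℂ) = 0 := by
  rw [dfc, rN_bot, finrank_bot]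
  rfl

/-- The structure of the failures if the defect is bounded. -/
theorem exists_core {C : ℕ} (h : NoBad C) : ∃ V₀ : Submodule ℚ ℂ, FiniteDimensional ℚ V₀ ∧
    (∀ V : Submodule ℚ ℂ, FiniteDimensional ℚ V → dfc V ≤ dfc (V ⊓ V₀)) ∧
    (∀ V : Submodule ℚ ℂ, FiniteDimensional ℚ V → dfc V ≤ dfc V₀) ∧
    (∀ V : Submodule ℚ ℂ, FiniteDimensional ℚ V → dfc V = dfc V₀ → V₀ ≤ V) ∧
    Q241.SX.bar V₀ = V₀ := by
  -- the maximal defect
  obtain ⟨d, ⟨V₁, hV₁, hd⟩, hmax⟩ := Int.exists_greatest_of_bdd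
    (P := fun d : ℤ => ∃ V : Submodule ℚ ℂ, FiniteDimensional ℚ V ∧ dfc V = d)
    ⟨C, by
      rintro z ⟨V, hV, rfl⟩
      have := h V
      rw [badC_iff_dfc] at this
      omega⟩
    ⟨0, ⊥, inferInstance, dfc_bot⟩
  have hmax' : ∀ V : Submodule ℚ ℂ, FiniteDimensional ℚ V → dfc V ≤ d := fun V hV => hmax _ ⟨V, hV, rfl⟩
  classical
  have hex : ∃ n : ℕ, ∃ V : Submodule ℚ ℂ, FiniteDimensional ℚ V ∧ dfc V = d ∧ Module.finrank ℚ V = n :=
    ⟨_, V₁, hV₁, hd, rfl⟩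
  obtain ⟨V₀, hV₀, h0, hn⟩ := Nat.find_spec hex
  have hmin : ∀ V : Submodule ℚ ℂ, FiniteDimensional ℚ V → dfc V = d →
      Module.finrank ℚ V₀ ≤ Module.finrank ℚ V := by
    intro V hV hVd
    rw [hn]
    exact Nat.find_min' hex ⟨V, hV, hVd, rfl⟩
  have hA : ∀ V : Submodule ℚ ℂ, FiniteDimensional ℚ V → dfc V ≤ dfc (V ⊓ V₀) := by
    intro V hV
    have h1 := dfc_submod V V₀
    have h2 := hmax' (V ⊔ V₀) (Submodule.finiteDimensional_sup _ _)
    omega
  have hB : ∀ V : Submodule ℚ ℂ, FiniteDimensional ℚ V → dfc V = dfc V₀ → V₀ ≤ V := by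
    intro V hV hVd
    have h1 := hA V hV
    have hfd : FiniteDimensional ℚ (V ⊓ V₀ : Submodule ℚ ℂ) := Submodule.finiteDimensional_inf_left _ _
    have h2 := hmax' (V ⊓ V₀) hfd
    have h3 := hmin (V ⊓ V₀) hfd (by omega)
    have h4 : V ⊓ V₀ = V₀ := Submodule.eq_of_le_of_finrank_le inf_le_right h3
    exact inf_eq_right.mp h4
  refine ⟨V₀, hV₀, hA, fun V hV => by rw [h0]; exact hmax' V hV, hB, ?_⟩
  have h1 : V₀ ≤ Q241.SX.bar V₀ := hB _ (fd_bar V₀) (dfc_bar V₀)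
  refine le_antisymm ?_ h1
  have h2 : Q241.SX.bar V₀ ≤ Q241.SX.bar (Q241.SX.bar V₀) := Submodule.map_mono h1
  rwa [bar_bar] at h2

/-- a complement of the intersection with `V₀` -/
theorem exists_compl (V V₀ : Submodule ℚ ℂ) [FiniteDimensional ℚ V] [FiniteDimensional ℚ V₀] :
    ∃ V' : Submodule ℚ ℂ, V' ≤ V ∧ V' ⊓ V₀ = ⊥ ∧ FiniteDimensional ℚ V' ∧
      Module.finrank ℚ V ≤ Module.finrank ℚ V' + Module.finrank ℚ V₀ := by
  obtain ⟨q, hq⟩ := exists_isCompl (V₀.comap V.subtype)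
  have hfd : FiniteDimensional ℚ (q.map V.subtype) := inferInstance
  refine ⟨q.map V.subtype, ?_, ?_, hfd, ?_⟩
  · rintro _ ⟨x, _, rfl⟩
    exact x.2
  · rw [eq_bot_iff]
    rintro _ ⟨⟨x, hx, rfl⟩, hx2⟩
    have h1 : x ∈ V₀.comap V.subtype ⊓ q := ⟨hx2, hx⟩
    rw [hq.inf_eq_bot] at h1
    rw [(Submodule.mem_bot ℚ).mp h1]
    simp
  · have h1 := Submodule.finrank_add_eq_of_isCompl hq
    have h2 : Module.finrank ℚ (q.map V.subtype) = Module.finrank ℚ q :=
      Submodule.finrank_map_subtype_eq V q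
    have h3 : Module.finrank ℚ (V₀.comap V.subtype) ≤ Module.finrank ℚ V₀ := by
      have h4 : Module.finrank ℚ ((V₀.comap V.subtype).map V.subtype) =
          Module.finrank ℚ (V₀.comap V.subtype) :=
        Submodule.finrank_map_subtype_eq V _
      rw [← h4]
      exact Submodule.finrank_mono (Submodule.map_comap_le _ _)
    omega

theorem finrank_sup_span {V₀ : Submodule ℚ ℂ} [FiniteDimensional ℚ V₀] {n : ℕ} {z : Fin n → ℂ}
    (hz : LinearIndependent ℚ (fun i => V₀.mkQ (z i))) :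
    LinearIndependent ℚ z ∧ V₀ ⊓ Submodule.span ℚ (range z) = ⊥ ∧
    Module.finrank ℚ (V₀ ⊔ Submodule.span ℚ (range z) : Submodule ℚ ℂ) = Module.finrank ℚ V₀ + n := by
  have h1 : LinearIndependent ℚ z := LinearIndependent.of_comp V₀.mkQ hz
  have h2 : V₀ ⊓ Submodule.span ℚ (range z) = ⊥ := by
    rw [eq_bot_iff]
    rintro x ⟨hx1, hx2⟩
    obtain ⟨c, rfl⟩ := (Submodule.mem_span_range_iff_exists_fun ℚ).mp hx2
    have h3 : ∑ i, c i • V₀.mkQ (z i) = 0 := by
      have h4 : V₀.mkQ (∑ i, c i • z i) = 0 := (Submodule.Quotient.mk_eq_zero V₀).mpr hx1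
      rw [map_sum] at h4
      simpa using h4
    have h5 := Fintype.linearIndependent_iff.mp hz c h3
    simp [h5]
  refine ⟨h1, h2, ?_⟩
  have hfd : FiniteDimensional ℚ (Submodule.span ℚ (range z)) :=
    FiniteDimensional.span_of_finite ℚ (finite_range z)
  have h3 := Submodule.finrank_sup_add_finrank_inf_eq V₀ (Submodule.span ℚ (range z))
  rw [h2, finrank_bot, finrank_span_eq_card h1, Fintype.card_fin] at h3
  omega

end Pool.Agent.Q280.SD
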