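import Pool.Agent.Q241.SX.D

/-!
# Spaces of large defect
-/

set_option autoImplicit false

open Matroid Set Q241.SX

namespace Pool.Agent.Q280.SD

/-- A finite dimensional space for which Schanuel's inequality fails by more than `C`. -/
def BadC (C : ℕ) (V : Submodule ℚ ℂ) : Prop :=
  FiniteDimensional ℚ V ∧ rk V + (C : ℕ∞) < (Module.finrank ℚ V : ℕ∞)

theorem rk_ne_top (V : Submodule ℚ ℂ) [FiniteDimensional ℚ V] : rk V ≠ ⊤ := by
  obtain ⟨t, ht⟩ : V.FG := Module.Finite.iff_fg.mp inferInstance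
  have h1 : V ≤ G (S (t : Set ℂ)) := by
    conv_lhs => rw [← ht]
    rw [Submodule.span_le]
    intro z hz
    exact ⟨subset_cl _ (Or.inl hz), subset_cl _ (Or.inr ⟨z, hz, rfl⟩)⟩
  have h2 := rk_le_of_le_G h1
  have h3 : (S (t : Set ℂ)).Finite := t.finite_toSet.union (t.finite_toSet.image _)
  exact ne_top_of_le_ne_top h3.encard_lt_top.ne (h2.trans (M.eRk_le_encard _))

/-- the transcendence degree as a natural number -/
noncomputable def rN (V : Submodule ℚ ℂ) : ℕ := (rk V).toNat

theorem coe_rN (V : Submodule ℚ ℂ) [FiniteDimensional ℚ V] : ((rN V : ℕ) : ℕ∞) = rk V :=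
  ENat.natCast_toNat (rk_ne_top V)

theorem badC_iff (C : ℕ) (V : Submodule ℚ ℂ) [h : FiniteDimensional ℚ V] :
    BadC C V ↔ rN V + C < Module.finrank ℚ V := by
  unfold BadC
  rw [← coe_rN V]
  constructor
  · rintro ⟨_, h2⟩
    exact_mod_cast h2
  · intro h2
    exact ⟨h, by exact_mod_cast h2⟩

theorem rN_submod (V W : Submodule ℚ ℂ) [FiniteDimensional ℚ V] [FiniteDimensional ℚ W] :
    rN (V ⊓ W) + rN (V ⊔ W) ≤ rN V + rN W := by
  have hf1 : FiniteDimensional ℚ (V ⊓ W : Submodule ℚ ℂ) := Submodule.finiteDimensional_inf_left _ _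
  have hf2 : FiniteDimensional ℚ (V ⊔ W : Submodule ℚ ℂ) := Submodule.finiteDimensional_sup _ _
  have := rk_submod V W
  rw [← coe_rN, ← coe_rN, ← coe_rN, ← coe_rN] at this
  exact_mod_cast this

theorem rN_mono {V W : Submodule ℚ ℂ} [FiniteDimensional ℚ V] [FiniteDimensional ℚ W] (h : V ≤ W) :
    rN V ≤ rN W := by
  have := rk_mono h
  rw [← coe_rN, ← coe_rN] at this
  exact_mod_cast this

theorem BadC.inf_or_sup {C : ℕ} {V W : Submodule ℚ ℂ} (hV : BadC C V) (hW : BadC C W) :
    BadC C (V ⊓ W) ∨ BadC C (V ⊔ W) := by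
  have := hV.1
  have := hW.1
  have hf1 : FiniteDimensional ℚ (V ⊓ W : Submodule ℚ ℂ) := Submodule.finiteDimensional_inf_left _ _
  have hf2 : FiniteDimensional ℚ (V ⊔ W : Submodule ℚ ℂ) := Submodule.finiteDimensional_sup _ _
  rw [badC_iff] at hV hW ⊢
  rw [badC_iff]
  have h3 := rN_submod V W
  have h4 := Submodule.finrank_sup_add_finrank_inf_eq V W
  omega

/-- One step: adding a number `x` such that `x` and `exp x` are dependent over `Q(V, exp V)`. -/
theorem BadC.step {C : ℕ} {V : Submodule ℚ ℂ} (hV : BadC C V) (x : ℂ)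
    (hx : x ∈ M.closure (S V) ∨ Complex.exp x ∈ M.closure (insert x (S (V : Set ℂ)))) :
    BadC C (V ⊔ Submodule.span ℚ {x}) := by
  have := hV.1
  have hf2 : FiniteDimensional ℚ (V ⊔ Submodule.span ℚ {x} : Submodule ℚ ℂ) :=
    Submodule.finiteDimensional_sup _ _
  by_cases hxV : x ∈ V
  · have : V ⊔ Submodule.span ℚ {x} = V := by
      apply sup_eq_left.mpr
      rw [Submodule.span_singleton_le_iff_mem]
      exact hxV
    rw [this]
    exact hV
  · have hfin : Module.finrank ℚ (V ⊔ Submodule.span ℚ {x} : Submodule ℚ ℂ)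
        = Module.finrank ℚ V + 1 := by
      have h0 : x ≠ 0 := by
        rintro rfl
        exact hxV V.zero_mem
      have h1 : V ⊓ Submodule.span ℚ {x} = ⊥ := by
        rw [eq_bot_iff]
        rintro y ⟨hy1, hy2⟩
        obtain ⟨c, rfl⟩ := Submodule.mem_span_singleton.mp hy2
        by_cases hc : c = 0
        · simp [hc]
        · exfalso
          apply hxV
          have := V.smul_mem c⁻¹ hy1
          rwa [smul_smul, inv_mul_cancel₀ hc, one_smul] at this
      have h2 := Submodule.finrank_sup_add_finrank_inf_eq V (Submodule.span ℚ {x})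
      rw [h1, finrank_bot, finrank_span_singleton h0] at h2
      omega
    have key : ∃ y : ℂ, V ⊔ Submodule.span ℚ {x} ≤ G (insert y (S (V : Set ℂ))) := by
      rcases hx with hx | hx
      · refine ⟨Complex.exp x, ?_⟩
        apply sup_le
        · exact (le_G_S V).trans (G_mono ((subset_insert _ _).trans (subset_cl _)))
        · rw [Submodule.span_singleton_le_iff_mem]
          exact ⟨cl_mono (subset_insert _ _) hx, subset_cl _ (mem_insert _ _)⟩
      · refine ⟨x, ?_⟩
        apply sup_le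
        · exact (le_G_S V).trans (G_mono ((subset_insert _ _).trans (subset_cl _)))
        · rw [Submodule.span_singleton_le_iff_mem]
          exact ⟨subset_cl _ (mem_insert _ _), hx⟩
    obtain ⟨y, hy⟩ := key
    have h1 : rk (V ⊔ Submodule.span ℚ {x}) ≤ rk V + 1 :=
      (rk_le_of_le_G hy).trans (M.eRk_insert_le_add_one _ _)
    rw [← coe_rN, ← coe_rN] at h1
    have h2 : rN (V ⊔ Submodule.span ℚ {x}) ≤ rN V + 1 := by exact_mod_cast h1
    rw [badC_iff] at hV ⊢
    omega

/-- Adding finitely many numbers algebraic over `Q(V, exp V)`. -/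
theorem BadC.absorb {C : ℕ} {V W : Submodule ℚ ℂ} (hV : BadC C V) (hVW : V ≤ W) [FiniteDimensional ℚ W]
    (hW : (W : Set ℂ) ⊆ M.closure (S V)) : BadC C W := by
  obtain ⟨t, ht⟩ : W.FG := Module.Finite.iff_fg.mp inferInstance
  have key : ∀ u : Finset ℂ, (u : Set ℂ) ⊆ M.closure (S V) → BadC C (V ⊔ Submodule.span ℚ (u : Set ℂ)) := by
    classical
    intro u
    induction u using Finset.induction_on with
    | empty => intro _; simpa using hV
    | insert a u ha ih =>
      intro hu
      have h1 := ih (fun y hy => hu (by simp only [Finset.coe_insert]; exact Or.inr hy))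
      have h2 := h1.step a (Or.inl (cl_mono (S_mono (SetLike.coe_subset_coe.mpr le_sup_left))
        (hu (by simp))))
      have h3 : V ⊔ Submodule.span ℚ ((insert a u : Finset ℂ) : Set ℂ)
          = V ⊔ Submodule.span ℚ (u : Set ℂ) ⊔ Submodule.span ℚ {a} := by
        rw [Finset.coe_insert, Submodule.span_insert, sup_assoc, sup_comm (Submodule.span ℚ {a})]
      rw [h3]
      exact h2
  have h4 := key t (by
    intro y hy
    apply hW
    rw [← ht]
    exact Submodule.subset_span hy)
  rw [ht, sup_eq_right.mpr hVW] at h4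
  exact h4

theorem BadC.absorb_closedForm {C : ℕ} {x : ℂ} (hx : ClosedForm x) :
    ∀ V : Submodule ℚ ℂ, BadC C V → ∃ W : Submodule ℚ ℂ, V ≤ W ∧ BadC C W ∧ x ∈ W := by
  classical
  induction hx with
  | intro F x hF hx ih =>
    intro V hV
    have key : ∀ E : Finset ℂ, (∀ y ∈ E, y ∈ F) → ∃ W : Submodule ℚ ℂ, V ≤ W ∧ BadC C W ∧
        (E : Set ℂ) ⊆ W := by
      intro E
      induction E using Finset.induction_on with
      | empty => intro _; exact ⟨V, le_rfl, hV, by simp⟩
      | insert a E _ ihE =>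
        intro hE
        obtain ⟨W, h1, h2, h3⟩ := ihE (fun y hy => hE y (Finset.mem_insert_of_mem hy))
        obtain ⟨W', h1', h2', h3'⟩ := ih a (hE a (Finset.mem_insert_self _ _)) W h2
        refine ⟨W', h1.trans h1', h2', ?_⟩
        rw [Finset.coe_insert]
        exact insert_subset h3' (h3.trans h1')
    obtain ⟨W, h1, h2, h3⟩ := key F (fun y hy => hy)
    refine ⟨W ⊔ Submodule.span ℚ {x}, h1.trans le_sup_left, h2.step x ?_, ?_⟩
    · rcases hx with hx | hx
      · exact Or.inl (cl_mono (S_mono h3) (cl_of_isAlgebraic hx))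
      · exact Or.inr (cl_mono (insert_subset_insert (S_mono h3)) (cl_of_isAlgebraic hx))
    · exact Submodule.mem_sup_right (Submodule.mem_span_singleton_self x)

theorem BadC.absorb_finset {C : ℕ} (L : Finset ℂ) (hL : ∀ x ∈ L, ClosedForm x) (V : Submodule ℚ ℂ)
    (hV : BadC C V) : ∃ W : Submodule ℚ ℂ, V ≤ W ∧ BadC C W ∧ (L : Set ℂ) ⊆ W := by
  classical
  induction L using Finset.induction_on with
  | empty => exact ⟨V, le_rfl, hV, by simp⟩
  | insert a E _ ihE =>
    obtain ⟨W, h1, h2, h3⟩ := ihE (fun x hx => hL x (Finset.mem_insert_of_mem hx))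
    obtain ⟨W', h1', h2', h3'⟩ := BadC.absorb_closedForm (hL a (Finset.mem_insert_self _ _)) W h2
    refine ⟨W', h1.trans h1', h2', ?_⟩
    rw [Finset.coe_insert]
    exact insert_subset h3' (h3.trans h1')

theorem finrank_bar (V : Submodule ℚ ℂ) : Module.finrank ℚ (bar V) = Module.finrank ℚ V :=
  LinearEquiv.finrank_map_eq cj.toLinearEquiv V

theorem fd_bar (V : Submodule ℚ ℂ) [FiniteDimensional ℚ V] : FiniteDimensional ℚ (bar V) :=
  inferInstanceAs (FiniteDimensional ℚ (V.map cj.toLinearMap))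

theorem rk_bar_le (V : Submodule ℚ ℂ) : rk (bar V) ≤ rk V := by
  rw [rk, rk, S_bar]
  have := eRk_image_le (cj '' S (V : Set ℂ))
  have h2 : cj '' (cj '' S (V : Set ℂ)) = S (V : Set ℂ) := by
    rw [image_image]
    simp only [cj_cj, image_id']
  rwa [h2] at this

theorem rk_bar (V : Submodule ℚ ℂ) : rk (bar V) = rk V := by
  refine le_antisymm (rk_bar_le V) ?_
  have := rk_bar_le (bar V)
  rwa [bar_bar] at this

theorem rN_bar (V : Submodule ℚ ℂ) : rN (bar V) = rN V := by rw [rN, rk_bar, rN]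

theorem BadC.bar {C : ℕ} {V : Submodule ℚ ℂ} (hV : BadC C V) : BadC C (bar V) := by
  have := hV.1
  have := fd_bar V
  rw [badC_iff] at hV ⊢
  rw [rN_bar, finrank_bar]
  exact hV

/-- A bad space containing a set of real numbers can be replaced by one stable under
conjugation. -/
theorem BadC.exists_stable {C : ℕ} {V : Submodule ℚ ℂ} (hV : BadC C V) (L : Set ℂ) (hL : L ⊆ V)
    (hreal : ∀ z ∈ L, cj z = z) :
    ∃ W : Submodule ℚ ℂ, BadC C W ∧ Q241.SX.bar W = W ∧ L ⊆ W := by
  rcases hV.inf_or_sup hV.bar with h | h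
  · refine ⟨_, h, ?_, ?_⟩
    · rw [bar_inf, bar_bar, inf_comm]
    · intro z hz
      refine ⟨hL hz, ?_⟩
      show z ∈ Q241.SX.bar V
      rw [mem_bar, hreal z hz]
      exact hL hz
  · refine ⟨_, h, ?_, ?_⟩
    · rw [bar_sup, bar_bar, sup_comm]
    · intro z hz
      exact Submodule.mem_sup_left (hL hz)

section real

variable {K : Type} [Field K] [Algebra ℚ K] [Algebra K ℝ] [IsScalarTower ℚ K ℝ]
  [FiniteDimensional ℚ K]

theorem exists_R {C : ℕ} {W : Submodule ℚ ℂ} (hW : BadC C W) (hst : Q241.SX.bar W = W) :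
    ∃ R : Submodule K ℝ, FiniteDimensional K R ∧ W ≤ cx (R.restrictScalars ℚ) ∧
      BadC C (cx (R.restrictScalars ℚ)) := by
  have := hW.1
  let reL : ℂ →ₗ[ℚ] ℝ := Complex.reLm.restrictScalars ℚ
  let imL : ℂ →ₗ[ℚ] ℝ := Complex.imLm.restrictScalars ℚ
  let P : Submodule ℚ ℝ := W.map reL ⊔ W.map imL
  have hPfd : FiniteDimensional ℚ P := Submodule.finiteDimensional_sup _ _
  obtain ⟨t, ht⟩ : P.FG := Module.Finite.iff_fg.mp hPfd
  let R : Submodule K ℝ := Submodule.span K (P : Set ℝ)
  have hRt : R = Submodule.span K (t : Set ℝ) := by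
    show Submodule.span K (P : Set ℝ) = _
    rw [← ht, Submodule.span_span_of_tower]
  have hRfd : FiniteDimensional K R := by
    rw [hRt]
    exact FiniteDimensional.span_of_finite K t.finite_toSet
  have hWR : W ≤ cx (R.restrictScalars ℚ) := by
    intro z hz
    refine ⟨?_, ?_⟩
    · exact Submodule.subset_span (Submodule.mem_sup_left ⟨z, hz, rfl⟩)
    · exact Submodule.subset_span (Submodule.mem_sup_right ⟨z, hz, rfl⟩)
  refine ⟨R, hRfd, hWR, ?_⟩
  have h1 := finiteDimensional_restrict R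
  have h2 := finiteDimensional_cx (R.restrictScalars ℚ)
  refine hW.absorb hWR (cx_subset_cl ?_)
  show Submodule.span K (P : Set ℝ) ≤ _
  rw [Submodule.span_le]
  have hst' : ∀ z ∈ W, (starRingEnd ℂ) z ∈ W := by
    intro z hz
    rw [← hst, mem_bar, cj_apply, Complex.conj_conj]
    exact hz
  have hhalf : ((2 : ℂ)⁻¹) ∈ M.closure (S (W : Set ℂ)) := by
    simpa using cl_rat (X := S (W : Set ℂ)) (2⁻¹)
  have hPle : P ≤ (clR K (S (W : Set ℂ))).restrictScalars ℚ := by
    apply sup_le
    · rintro _ ⟨z, hz, rfl⟩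
      show ((z.re : ℝ) : ℂ) ∈ M.closure (S (W : Set ℂ))
      have h3 : ((z.re : ℝ) : ℂ) = (z + (starRingEnd ℂ) z) * 2⁻¹ := by
        rw [Complex.add_conj]; push_cast; ring
      rw [h3]
      exact cl_mul (cl_add (subset_cl _ (Or.inl hz)) (subset_cl _ (Or.inl (hst' z hz)))) hhalf
    · rintro _ ⟨z, hz, rfl⟩
      show ((z.im : ℝ) : ℂ) ∈ M.closure (S (W : Set ℂ))
      have h3 : ((z.im : ℝ) : ℂ) = -((z + -(starRingEnd ℂ) z) * 2⁻¹ * Complex.I) := by
        rw [← sub_eq_add_neg, Complex.sub_conj]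
        push_cast
        have := Complex.I_mul_I
        linear_combination (z.im : ℂ) * this
      rw [h3]
      exact cl_neg (cl_mul (cl_mul (cl_add (subset_cl _ (Or.inl hz))
        (cl_neg (subset_cl _ (Or.inl (hst' z hz))))) hhalf) cl_I)
  exact hPle

theorem enlarge_R {C : ℕ} (R : Submodule K ℝ) (hR : FiniteDimensional K R)
    (hB : BadC C (cx (R.restrictScalars ℚ))) (m : ℕ) (hm : Module.finrank K R ≤ m) :
    ∃ T : Submodule K ℝ, FiniteDimensional K T ∧ R ≤ T ∧ BadC C (cx (T.restrictScalars ℚ)) ∧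
      Module.finrank K T = m := by
  induction m, hm using Nat.le_induction with
  | base => exact ⟨R, hR, le_rfl, hB, rfl⟩
  | succ m hm ih =>
    obtain ⟨T, hT1, hT2, hT3, hT4⟩ := ih
    have h1 := finiteDimensional_restrict T
    obtain ⟨x, hx, hxT⟩ := exists_algebraic_notMem (T.restrictScalars ℚ)
    have hxT' : x ∉ T := hxT
    have h0 : x ≠ 0 := by
      rintro rfl
      exact hxT' T.zero_mem
    have hfd : FiniteDimensional K (T ⊔ Submodule.span K {x} : Submodule K ℝ) :=
      Submodule.finiteDimensional_sup _ _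
    refine ⟨T ⊔ Submodule.span K {x}, hfd, hT2.trans le_sup_left, ?_, ?_⟩
    · have h2 := finiteDimensional_restrict (T ⊔ Submodule.span K {x} : Submodule K ℝ)
      have h3 := finiteDimensional_cx ((T ⊔ Submodule.span K {x} : Submodule K ℝ).restrictScalars ℚ)
      refine hT3.absorb (cx_mono ?_) (cx_subset_cl ?_)
      · intro y hy
        exact Submodule.mem_sup_left (S := T) (T := Submodule.span K {x}) hy
      · apply sup_le
        · intro y hy
          apply subset_cl
          left
          refine ⟨?_, ?_⟩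
          · simpa using hy
          · simp
        · rw [Submodule.span_singleton_le_iff_mem]
          exact cl_alg (hx.algebraMap (A := ℂ))
    · have h1 : T ⊓ Submodule.span K {x} = ⊥ := by
        rw [eq_bot_iff]
        rintro y ⟨hy1, hy2⟩
        obtain ⟨c, rfl⟩ := Submodule.mem_span_singleton.mp hy2
        by_cases hc : c = 0
        · simp [hc]
        · exfalso
          apply hxT'
          have := T.smul_mem c⁻¹ hy1
          rwa [smul_smul, inv_mul_cancel₀ hc, one_smul] at this
      have h2 := Submodule.finrank_sup_add_finrank_inf_eq T (Submodule.span K {x})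
      rw [h1, finrank_bot, finrank_span_singleton h0, hT4] at h2
      omega

end real

end Pool.Agent.Q280.SD
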